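import Mathlib

/-!
# Two filtrations of a finite-dimensional space have a common adapted basis
-/

set_option autoImplicit false

namespace Pool.Agent.K1H65.LP

/-- A decreasing filtration by subspaces: exhaustive, and separated on finite-dimensional
subspaces. -/
structure Fil (k K : Type) [Field k] [AddCommGroup K] [Module k K] where
  /-- the subspaces -/
  S : ℤ → Submodule k K
  anti : ∀ m n, m ≤ n → S n ≤ S m
  exh : ∀ x, ∃ n, x ∈ S n
  bdd : ∀ V : Submodule k K, FiniteDimensional k V → ∃ N, ∀ x ∈ V, x ≠ 0 → x ∉ S N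

variable {k K : Type} [Field k] [AddCommGroup K] [Module k K]

/-- greatest index for a set of nonzero vectors of a finite-dimensional space -/
theorem Fil.greatest (Φ : Fil k K) (V : Submodule k K) [hV : FiniteDimensional k V] (P : K → Prop)
    (hP : ∃ x ∈ V, x ≠ 0 ∧ P x) :
    ∃ n, (∃ x ∈ V, x ≠ 0 ∧ P x ∧ x ∈ Φ.S n) ∧ ∀ m x, x ∈ V → x ≠ 0 → P x → x ∈ Φ.S m → m ≤ n := by
  obtain ⟨N, hN⟩ := Φ.bdd V hV
  obtain ⟨x, hx, hx0, hPx⟩ := hP
  obtain ⟨n0, hn0⟩ := Φ.exh x
  obtain ⟨n, hn, hmax⟩ := Int.exists_greatest_of_bdd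
    (P := fun n => ∃ x ∈ V, x ≠ 0 ∧ P x ∧ x ∈ Φ.S n)
    ⟨N, fun m ⟨y, hy, hy0, _, hm⟩ => by
      by_contra h
      exact hN y hy hy0 (Φ.anti _ _ (by omega) hm)⟩
    ⟨n0, x, hx, hx0, hPx, hn0⟩
  exact ⟨n, hn, fun m x hx hx0 hPx hm => hmax m ⟨x, hx, hx0, hPx, hm⟩⟩

/-- adapted families -/
structure Fad (Φ : Fil k K) {κ : Type} [Fintype κ] (b : κ → K) (o : κ → ℤ) : Prop where
  ne : ∀ i, b i ≠ 0
  mem : ∀ i, b i ∈ Φ.S (o i)
  adp : ∀ (c : κ → k) (n : ℤ), ∑ i, c i • b i ∈ Φ.S n → ∀ i, c i ≠ 0 → n ≤ o i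

theorem common (Φ Ψ : Fil k K) (d : ℕ) : ∀ V : Submodule k K, FiniteDimensional k V →
    Module.finrank k V = d → ∃ (κ : Type) (_ : Fintype κ) (b : κ → K) (o0 o1 : κ → ℤ),
      Fad Φ b o0 ∧ Fad Ψ b o1 ∧ (∀ j, b j ∈ V) ∧ Submodule.span k (Set.range b) = V := by
  induction d using Nat.strong_induction_on with
  | _ d ih =>
  intro V hV hd
  by_cases h0 : V = ⊥
  · exact ⟨Empty, inferInstance, fun i => i.elim, fun i => i.elim, fun i => i.elim,
      ⟨fun i => i.elim, fun i => i.elim, fun _ _ _ i => i.elim⟩,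
      ⟨fun i => i.elim, fun i => i.elim, fun _ _ _ i => i.elim⟩, fun i => i.elim, by
        rw [h0, Set.range_eq_empty, Submodule.span_empty]⟩
  obtain ⟨x, hx, hx0⟩ := Submodule.exists_mem_ne_zero_of_ne_bot h0
  obtain ⟨n0, ⟨w, hw, hw0, -, hwn⟩, hmax⟩ := Φ.greatest V (fun _ => True) ⟨x, hx, hx0, trivial⟩
  obtain ⟨j, ⟨w', hw', hw0', rfl, hwj⟩, hmaxj⟩ := Ψ.greatest V (fun y => y = w)
    ⟨w, hw, hw0, rfl⟩
  have hwV1 : w' ∉ V ⊓ Ψ.S (j + 1) := by
    intro h
    have := hmaxj (j + 1) w' hw hw0 rfl h.2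
    omega
  obtain ⟨φ, hφw, hφ⟩ := Submodule.exists_le_ker_of_notMem hwV1
  obtain ⟨V', hV'⟩ : ∃ V' : Submodule k K, V' = V ⊓ LinearMap.ker φ := ⟨_, rfl⟩
  have hV'V : V' ≤ V := hV' ▸ inf_le_left
  have hker : ∀ y ∈ V', φ y = 0 := fun y hy => by
    rw [hV'] at hy
    exact hy.2
  have hlt : V' < V := by
    refine lt_of_le_of_ne hV'V fun h => ?_
    have : w' ∈ V' := h ▸ hw
    exact hφw (hker _ this)
  have hfin : FiniteDimensional k V' := Submodule.finiteDimensional_of_le hV'V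
  have hrk : Module.finrank k V' < d := hd ▸ Submodule.finrank_lt_finrank_of_lt hlt
  obtain ⟨κ, hκ, b, o0, o1, hb0, hb1, hbV, hspan⟩ := ih _ hrk V' hfin rfl
  have hsplit : ∀ y ∈ V, ∃ (c : k) (z : K), z ∈ V' ∧ y = c • w' + z := by
    intro y hy
    refine ⟨φ y * (φ w')⁻¹, y - (φ y * (φ w')⁻¹) • w', ?_, by abel⟩
    rw [hV']
    refine ⟨V.sub_mem hy (V.smul_mem _ hw), ?_⟩
    change φ (y - (φ y * (φ w')⁻¹) • w') = 0
    rw [map_sub, map_smul, smul_eq_mul, mul_assoc, inv_mul_cancel₀ hφw, mul_one, sub_self]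
  have hsumV' : ∀ c : κ → k, ∑ i, c i • b i ∈ V' := fun c =>
    V'.sum_mem fun i _ => V'.smul_mem _ (hbV i)
  refine ⟨Option κ, inferInstance, fun j => j.elim w' b, fun i => i.elim n0 o0,
    fun i => i.elim j o1, ⟨?_, ?_, ?_⟩, ⟨?_, ?_, ?_⟩, ?_, ?_⟩
  · rintro (_ | i)
    · exact hw0
    · exact hb0.ne i
  · rintro (_ | i)
    · exact hwn
    · exact hb0.mem i
  · intro c n hn
    rw [Fintype.sum_option] at hn
    change c none • w' + ∑ i, c (some i) • b i ∈ Φ.S n at hn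
    have hnone : c none ≠ 0 → n ≤ n0 := by
      intro hc
      refine hmax n _ (V.add_mem (V.smul_mem _ hw) (hV'V (hsumV' _))) ?_ trivial hn
      intro h
      have := congrArg φ h
      rw [map_add, map_smul, hker _ (hsumV' _), add_zero, map_zero, smul_eq_mul] at this
      rcases mul_eq_zero.mp this with h | h
      · exact hc h
      · exact hφw h
    have hrest : ∑ i, c (some i) • b i ∈ Φ.S n := by
      by_cases hc : c none = 0
      · rwa [hc, zero_smul, zero_add] at hn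
      · have h1 : w' ∈ Φ.S n := Φ.anti _ _ (hnone hc) hwn
        have h2 := (Φ.S n).sub_mem hn ((Φ.S n).smul_mem (c none) h1)
        rwa [add_sub_cancel_left] at h2
    rintro (_ | i) hi
    · exact hnone hi
    · exact hb0.adp (fun i => c (some i)) n hrest i hi
  · rintro (_ | i)
    · exact hw0
    · exact hb1.ne i
  · rintro (_ | i)
    · exact hwj
    · exact hb1.mem i
  · intro c n hn
    rw [Fintype.sum_option] at hn
    change c none • w' + ∑ i, c (some i) • b i ∈ Ψ.S n at hn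
    have hnone : c none ≠ 0 → n ≤ j := by
      intro hc
      by_contra hlt'
      have h1 : c none • w' + ∑ i, c (some i) • b i ∈ V ⊓ Ψ.S (j + 1) :=
        ⟨V.add_mem (V.smul_mem _ hw) (hV'V (hsumV' _)), Ψ.anti _ _ (by omega) hn⟩
      have h2 := hφ h1
      rw [LinearMap.mem_ker, map_add, map_smul, hker _ (hsumV' _), add_zero, smul_eq_mul] at h2
      rcases mul_eq_zero.mp h2 with h | h
      · exact hc h
      · exact hφw h
    have hrest : ∑ i, c (some i) • b i ∈ Ψ.S n := by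
      by_cases hc : c none = 0
      · rwa [hc, zero_smul, zero_add] at hn
      · have h1 : w' ∈ Ψ.S n := Ψ.anti _ _ (hnone hc) hwj
        have h2 := (Ψ.S n).sub_mem hn ((Ψ.S n).smul_mem (c none) h1)
        rwa [add_sub_cancel_left] at h2
    rintro (_ | i) hi
    · exact hnone hi
    · exact hb1.adp (fun i => c (some i)) n hrest i hi
  · rintro (_ | i)
    · exact hw
    · exact hV'V (hbV i)
  · apply le_antisymm
    · rw [Submodule.span_le]
      rintro _ ⟨_ | i, rfl⟩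
      · exact hw
      · exact hV'V (hbV i)
    · intro y hy
      obtain ⟨c, z, hz, rfl⟩ := hsplit y hy
      refine Submodule.add_mem _ (Submodule.smul_mem _ _ (Submodule.subset_span ⟨none, rfl⟩)) ?_
      rw [← hspan] at hz
      refine Submodule.span_mono ?_ hz
      rintro _ ⟨i, rfl⟩
      exact ⟨some i, rfl⟩

end Pool.Agent.K1H65.LP
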