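import Pool.Agent.K1H17.LP.Stm1
import Pool.Agent.K1H65.LP.Fil

/-!
# Piece LP-4 (S_ADP2) for helper17
-/

set_option autoImplicit false

open FF Pool.Agent.W603.LV Pool.Agent.K1H17.TP Pool.Agent.K1H17.LP

namespace Pool.Agent.K1H65.LP

/-- the filtration of a family of places -/
noncomputable def plFil {k K : Type} [Field k] [Field K] [Algebra k K] {T : Type} [Finite T]
    [hT : Nonempty T] (v : T → Place k K) (s : T → ℤ) : Fil k K where
  S n :=
    { carrier := {y | ∀ t, Ge (v t) (n - s t) y}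
      add_mem' := fun {a b} ha hb t => (ha t).add (hb t)
      zero_mem' := fun t => Ge.zero
      smul_mem' := fun c x hx t => ge_smul c (hx t) }
  anti m n h x hx t := (hx t).mono (by omega)
  exh x := by
    have := Fintype.ofFinite T
    obtain ⟨t0⟩ := hT
    refine ⟨Finset.univ.inf' ⟨t0, Finset.mem_univ _⟩ fun t => (v t).ord x + s t, fun t => ?_⟩
    right
    have := Finset.inf'_le (fun t => (v t).ord x + s t) (Finset.mem_univ t)
    omega
  bdd V hV := by
    obtain ⟨t0⟩ := hT
    obtain ⟨N, hN⟩ := bdd_ord (v := v t0) V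
    refine ⟨N + s t0, fun x hx hx0 h => ?_⟩
    have h1 := (h t0).resolve_left hx0
    have h2 := hN x hx hx0
    omega

theorem adpT_of_fad {k K : Type} [Field k] [Field K] [Algebra k K] {T : Type} [Finite T]
    [Nonempty T] {v : T → Place k K} {s : T → ℤ} {κ : Type} [Fintype κ] {b : κ → K} {o : κ → ℤ}
    (h : Fad (plFil v s) b o) : AdpT v s b o where
  ne := h.ne
  le i t := by
    have := (h.mem i t).resolve_left (h.ne i)
    omega
  adp c n hn i hi := h.adp c n hn i hi

theorem t_ADP2 : S_ADP2 := by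
  intro k K _ _ _ T0 T1 _ _ _ _ v0 s0 v1 s1 V hV
  obtain ⟨κ, hκ, b, o0, o1, h0, h1, h2, h3⟩ := common (plFil v0 s0) (plFil v1 s1) _ V hV rfl
  exact ⟨κ, hκ, b, o0, o1, adpT_of_fad h0, adpT_of_fad h1, h2, h3⟩

end Pool.Agent.K1H65.LP
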