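import Pool.Agent.K1H17.LP.Stm0

/-!
# Piece LP-3 (S_IND) for helper17
-/

set_option autoImplicit false

namespace Pool.Agent.K1H65.LP

open Pool.Agent.K1H17.LP

section exch

variable {k L : Type} [Field k] [Field L] [Algebra k L] {n : ℕ}

/-- Exchange: if the algebraically independent `y i` are algebraic over `z`, then `z` is
algebraically independent. -/
theorem exch {y z : Fin n → L} (hy : AlgebraicIndependent k y)
    (h : ∀ i, IsAlgebraic (Algebra.adjoin k (Set.range z)) (y i)) : AlgebraicIndependent k z := by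
  let M := AlgebraicIndependent.matroid k L
  have h1 : M.Indep (Set.range y) :=
    AlgebraicIndependent.matroid_indep_iff.mpr hy.to_subtype_range
  have h2 : Set.range y ⊆ M.closure (Set.range z) := by
    rintro _ ⟨i, rfl⟩
    have := h i
    rw [AlgebraicIndependent.matroid_closure_eq]
    exact this
  have h3 : (Set.range y).encard = n := by
    rw [← Set.image_univ, hy.injective.encard_image]
    simp
  have h4 : (n : ℕ∞) ≤ M.eRk (Set.range z) := by
    rw [← M.eRk_closure_eq, ← h3, ← h1.eRk_eq_encard]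
    exact M.eRk_mono h2
  have h5 : M.eRk (Set.range z) ≤ (Set.range z).encard := M.eRk_le_encard _
  have h6 : (Set.range z).encard ≤ n := by
    rw [← Set.image_univ]
    refine (Set.encard_image_le _ _).trans ?_
    simp
  have h7 : (Set.range z).encard = n := le_antisymm h6 (h4.trans h5)
  have h8 : M.Indep (Set.range z) := by
    rw [Matroid.indep_iff_eRk_eq_encard_of_finite (Set.finite_range z)]
    exact le_antisymm h5 (h7 ▸ h4)
  have h9 : Function.Injective z := by
    have : (Set.univ : Set (Fin n)).InjOn z := by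
      refine Set.finite_univ.injOn_of_encard_image_eq ?_
      rw [Set.image_univ, h7]
      simp
    exact Set.injOn_univ.mp this
  exact AlgebraicIndependent.of_subtype_range h9 (AlgebraicIndependent.matroid_indep_iff.mp h8)

end exch

section laurent

open MvPolynomial

variable {k K : Type} [Field k] [Field K] [Algebra k K] {n h : ℕ}

theorem prod_zpow_sum {K : Type} [Field K] {x : K} (hx : x ≠ 0) {ι : Type} (s : Finset ι)
    (f : ι → ℤ) : ∏ i ∈ s, x ^ f i = x ^ (∑ i ∈ s, f i) := by
  classical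
  induction s using Finset.induction_on with
  | empty => simp
  | insert a t ha ih => rw [Finset.prod_insert ha, Finset.sum_insert ha, ih, zpow_add₀ hx]

/-- Laurent monomials with independent exponents -/
theorem laurent_ind {Y : Fin n → K} (hY : AlgebraicIndependent k Y) (hY0 : ∀ j, Y j ≠ 0)
    (ε : Fin h → Fin n → ℤ) (hε : LinearIndependent ℚ fun b => fun j => (ε b j : ℚ)) :
    AlgebraicIndependent k fun b => ∏ j, Y j ^ ε b j := by
  classical
  rw [algebraicIndependent_iff]
  intro P hP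
  by_contra hne
  obtain ⟨N, hN⟩ : ∃ N : ℤ, ∀ s ∈ P.support, ∀ j, 0 ≤ N + ∑ b, (s b : ℤ) * ε b j := by
    refine ⟨∑ s ∈ P.support, ∑ j, |∑ b, (s b : ℤ) * ε b j|, fun s hs j => ?_⟩
    have h1 : |∑ b, (s b : ℤ) * ε b j| ≤ ∑ j, |∑ b, (s b : ℤ) * ε b j| :=
      Finset.single_le_sum (f := fun j => |∑ b, (s b : ℤ) * ε b j|) (fun _ _ => abs_nonneg _)
        (Finset.mem_univ j)
    have h2 : ∑ j, |∑ b, (s b : ℤ) * ε b j| ≤
        ∑ s ∈ P.support, ∑ j, |∑ b, (s b : ℤ) * ε b j| :=
      Finset.single_le_sum (f := fun s : Fin h →₀ ℕ => ∑ j, |∑ b, (s b : ℤ) * ε b j|)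
        (fun _ _ => Finset.sum_nonneg fun _ _ => abs_nonneg _) hs
    have h3 := neg_abs_le (∑ b, (s b : ℤ) * ε b j)
    linarith
  obtain ⟨e, he⟩ : ∃ e : (Fin h →₀ ℕ) → (Fin n →₀ ℕ), e = fun s =>
    Finsupp.equivFunOnFinite.symm fun j => (N + ∑ b, (s b : ℤ) * ε b j).toNat := ⟨_, rfl⟩
  have hes : ∀ s ∈ P.support, ∀ j, ((e s j : ℕ) : ℤ) = N + ∑ b, (s b : ℤ) * ε b j := by
    intro s hs j
    rw [he]
    exact Int.toNat_of_nonneg (hN s hs j)
  have hinj : ∀ s ∈ P.support, ∀ s' ∈ P.support, e s = e s' → s = s' := by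
    intro s hs s' hs' hss
    have h1 : ∀ j, ∑ b, ((s b : ℚ) - s' b) * (ε b j : ℚ) = 0 := by
      intro j
      have h2 : ∑ b, (s b : ℤ) * ε b j = ∑ b, (s' b : ℤ) * ε b j := by
        have h3 := hes s hs j
        have h4 := hes s' hs' j
        rw [hss] at h3
        linarith
      have h3 : (∑ b, (s b : ℚ) * (ε b j : ℚ)) = ∑ b, (s' b : ℚ) * (ε b j : ℚ) := by
        exact_mod_cast h2
      simp only [sub_mul]
      rw [Finset.sum_sub_distrib, h3, sub_self]
    have h2 := Fintype.linearIndependent_iff.1 hε (fun b => (s b : ℚ) - s' b) (by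
      funext j
      rw [Finset.sum_apply]
      exact h1 j)
    ext b
    have h3 := h2 b
    rw [sub_eq_zero] at h3
    exact_mod_cast h3
  obtain ⟨Q, hQ⟩ : ∃ Q : MvPolynomial (Fin n) k, Q = ∑ s ∈ P.support, monomial (e s) (coeff s P) :=
    ⟨_, rfl⟩
  have hcoeff : ∀ s ∈ P.support, coeff (e s) Q = coeff s P := by
    intro s hs
    rw [hQ, coeff_sum, Finset.sum_eq_single s]
    · rw [coeff_monomial, if_pos rfl]
    · intro s' hs' hne
      rw [coeff_monomial, if_neg]
      intro h
      exact hne (hinj _ hs' _ hs h)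
    · intro h
      exact absurd hs h
  have hQY : aeval Y Q = aeval (fun b => ∏ j, Y j ^ ε b j) P * ∏ j, Y j ^ N := by
    rw [hQ, map_sum, aeval_def (fun b => ∏ j, Y j ^ ε b j), eval₂_eq', Finset.sum_mul]
    refine Finset.sum_congr rfl fun s hs => ?_
    rw [aeval_monomial, mul_assoc]
    congr 1
    rw [Finsupp.prod_fintype _ _ fun i => pow_zero _]
    have h1 : ∀ j, Y j ^ e s j = Y j ^ (∑ b, (s b : ℤ) * ε b j) * Y j ^ N := by
      intro j
      rw [← zpow_natCast, hes s hs, add_comm, zpow_add₀ (hY0 j)]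
    rw [Finset.prod_congr rfl fun j _ => h1 j, Finset.prod_mul_distrib]
    congr 1
    have h2 : ∀ b, (∏ j, Y j ^ ε b j) ^ s b = ∏ j, Y j ^ ((s b : ℤ) * ε b j) := by
      intro b
      rw [← Finset.prod_pow]
      refine Finset.prod_congr rfl fun j _ => ?_
      rw [← zpow_natCast, ← zpow_mul, mul_comm]
    rw [Finset.prod_congr rfl fun b _ => h2 b, Finset.prod_comm]
    exact Finset.prod_congr rfl fun j _ => (prod_zpow_sum (hY0 j) _ _).symm
  rw [hP, zero_mul] at hQY
  have hQ0 : Q = 0 := (injective_iff_map_eq_zero _).1 hY Q hQY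
  obtain ⟨s, hs⟩ := support_nonempty.2 hne
  have h1 := hcoeff s hs
  rw [hQ0, coeff_zero] at h1
  exact (mem_support_iff.1 hs) h1.symm

end laurent

open Polynomial

/-- `x` is algebraic over `f0(x)^d1 / f1(x)^d0`. -/
theorem alg_over {k L : Type} [Field k] [IsAlgClosed k] [Field L] [Algebra k L] {A : Subalgebra k L}
    {x t : L} (ht : t ∈ A) (ht0 : t ≠ 0) {f0 f1 : k[X]} {d0 d1 : ℕ} (h0 : 1 ≤ f0.natDegree)
    (hd1 : d1 ≠ 0) (hc : IsCoprime f0 f1) (h : aeval x f0 ^ d1 = t * aeval x f1 ^ d0) :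
    IsAlgebraic A x := by
  obtain ⟨a, ha⟩ := IsAlgClosed.exists_root f0 (by
    intro h'
    have h'' := natDegree_eq_of_degree_eq_some (n := 0) (by rw [h']; rfl)
    omega)
  have ha1 : f1.eval a ≠ 0 := by
    intro h1
    obtain ⟨u, v, huv⟩ := hc
    have := congrArg (Polynomial.eval a) huv
    rw [Polynomial.eval_add, Polynomial.eval_mul, Polynomial.eval_mul, ha.eq_zero, h1] at this
    simp at this
  refine ⟨(f0.map (algebraMap k A)) ^ d1 - C (⟨t, ht⟩ : A) * (f1.map (algebraMap k A)) ^ d0, ?_, ?_⟩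
  · intro h'
    have h2 := congrArg (Polynomial.eval (algebraMap k A a)) h'
    rw [Polynomial.eval_sub, Polynomial.eval_mul, Polynomial.eval_pow, Polynomial.eval_pow,
      Polynomial.eval_C, Polynomial.eval_map_algebraMap, Polynomial.eval_map_algebraMap,
      Polynomial.aeval_algebraMap_apply, Polynomial.aeval_algebraMap_apply,
      Polynomial.coe_aeval_eq_eval, ha.eq_zero, map_zero,
      zero_pow hd1, zero_sub, Polynomial.eval_zero, neg_eq_zero] at h2
    have h3 := congrArg (algebraMap A L) h2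
    rw [map_mul, map_pow, map_zero, ← IsScalarTower.algebraMap_apply] at h3
    rcases mul_eq_zero.mp h3 with h4 | h4
    · exact ht0 h4
    · have := eq_zero_of_pow_eq_zero h4
      rw [map_eq_zero] at this
      exact ha1 this
  · rw [map_sub, map_mul, map_pow, map_pow, Polynomial.aeval_C, Polynomial.aeval_map_algebraMap,
      Polynomial.aeval_map_algebraMap, h]
    exact sub_self _

theorem t_IND : S_IND := by
  intro k L _ _ _ _ _ r h x f u hx hf hcop hu hlin
  classical
  have hxt : ∀ i, Transcendental k (x i) := fun i => hx.transcendental i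
  have hne : ∀ i c, aeval (x i) (f i c) ≠ 0 := by
    intro i c h0
    refine hxt i ⟨f i c, ?_, h0⟩
    intro h1
    have := hf i c
    rw [h1, natDegree_zero] at this
    omega
  obtain ⟨d, hd⟩ : ∃ d : Fin r → Fin 2 → ℕ, d = fun i c => (f i c).natDegree := ⟨_, rfl⟩
  have hd1 : ∀ i c, 1 ≤ d i c := by
    intro i c
    rw [hd]
    exact hf i c
  let t : Fin r → L := fun i => aeval (x i) (f i 0) ^ d i 1 / aeval (x i) (f i 1) ^ d i 0
  have ht0 : ∀ i, t i ≠ 0 := fun i => div_ne_zero (pow_ne_zero _ (hne _ _)) (pow_ne_zero _ (hne _ _))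
  have ht : AlgebraicIndependent k t := by
    refine exch hx fun i => alg_over (t := t i) (Algebra.subset_adjoin ⟨i, rfl⟩) (ht0 i)
      (hf i 0) (d0 := d i 0) (d1 := d i 1) (by have := hd1 i 1; omega) (hcop i) ?_
    exact (div_mul_cancel₀ _ (pow_ne_zero _ (hne _ _))).symm
  -- the common exponent
  let N : ℕ := ∏ i, d i 1
  have hN : 0 < N := Finset.prod_pos fun i _ => hd1 i 1
  let e : Fin r → ℕ := fun i => ∏ j ∈ Finset.univ.erase i, d j 1
  have he : ∀ i, d i 1 * e i = N := fun i =>
    Finset.mul_prod_erase Finset.univ (fun i => d i 1) (Finset.mem_univ i)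
  have he0 : ∀ i, e i ≠ 0 := by
    intro i h0
    have := he i
    rw [h0, mul_zero] at this
    omega
  have hmono : AlgebraicIndependent k fun l => ∏ i, t i ^ (u l i 0 * e i) := by
    refine laurent_ind ht ht0 (fun l i => u l i 0 * e i) ?_
    rw [Fintype.linearIndependent_iff] at hlin ⊢
    intro c hc
    refine hlin c ?_
    funext i
    have h1 := congrFun hc i
    rw [Finset.sum_apply] at h1 ⊢
    simp only [Pi.smul_apply, smul_eq_mul, Int.cast_mul, Int.cast_natCast, Pi.zero_apply] at h1 ⊢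
    have h2 : (∑ l, c l * (u l i 0 : ℚ)) * (e i : ℚ) = 0 := by
      rw [Finset.sum_mul, ← h1]
      exact Finset.sum_congr rfl fun l _ => by ring
    rcases mul_eq_zero.mp h2 with h3 | h3
    · exact h3
    · exact absurd (by exact_mod_cast h3) (he0 i)
  refine exch hmono fun l => ?_
  have key : ∏ i, t i ^ (u l i 0 * e i) =
      (∏ i, ∏ c, (aeval (x i) (f i c)) ^ u l i c) ^ N := by
    rw [← Finset.prod_pow]
    refine Finset.prod_congr rfl fun i _ => ?_
    have h1 : u l i 0 * d i 0 + u l i 1 * d i 1 = 0 := by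
      have := hu l i
      rw [Fin.sum_univ_two] at this
      rw [hd]
      exact this
    rw [Fin.prod_univ_two, mul_pow, ← he i]
    change (aeval (x i) (f i 0) ^ d i 1 / aeval (x i) (f i 1) ^ d i 0) ^ (u l i 0 * e i) = _
    rw [div_zpow, div_eq_mul_inv]
    congr 1
    · rw [← zpow_natCast, ← zpow_natCast, ← zpow_mul, ← zpow_mul]
      congr 1
      push_cast
      ring
    · rw [← zpow_natCast, ← zpow_natCast, ← zpow_mul, ← zpow_mul, ← zpow_neg]
      congr 1
      push_cast
      linear_combination (-(e i : ℤ)) * h1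
  rw [key]
  have hmem : (∏ i, ∏ c, (aeval (x i) (f i c)) ^ u l i c) ∈
      Algebra.adjoin k (Set.range fun l => ∏ i, ∏ c, (aeval (x i) (f i c)) ^ u l i c) :=
    Algebra.subset_adjoin ⟨l, rfl⟩
  exact isAlgebraic_algebraMap (⟨_, pow_mem hmem N⟩ : Algebra.adjoin k
    (Set.range fun l => ∏ i, ∏ c, (aeval (x i) (f i c)) ^ u l i c))

end Pool.Agent.K1H65.LP
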